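import Pool.Agent.H705.RO.Stm

/-! # RO UP: the upper bound for the sum of the series (deterministic) -/

set_option autoImplicit false

namespace Pool.Agent.H236.RO

open MeasureTheory ProbabilityTheory Filter Topology Finset
open Pool.Agent.H705.RO

lemma stage (W : ℕ → ℝ → ℝ) (S : ℝ → ℝ) (a : ℕ → ℝ) (κ b q : ℝ) (m : ℕ) (K : ℝ) (hκ : 0 < κ) (hb : 0 ≤ b)
    (hq : 1 < q) (hm : 1 ≤ q * pe m)
    (hK : ∀ J k : ℕ, ∀ t : ℝ, 0 ≤ t → t ≤ 2 ^ k → ∀ M : ℕ, 2 ^ J ≤ M →
      |S t - part W M t| ≤ K * (2 : ℝ) ^ (-(pe m * J / 2)) * Real.sqrt ((J : ℝ) + k + 1))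
    (hR : ∀ N t, |part W N t| ≤ R a N)
    (hev : ∀ᶠ N : ℕ in atTop, R a N ≤ b * Real.log N ^ κ) :
    ∀ᶠ k : ℕ in atTop, ∀ t : ℝ, 0 ≤ t → t ≤ 2 ^ k →
      |S t| ≤ b * (q * Real.log k + 1) ^ κ + 2 * |K| := by
  have hl2 : 0 < Real.log 2 := Real.log_pos (by norm_num)
  have hq0 : 0 < q := by linarith
  have hlogk : Tendsto (fun k : ℕ => Real.log (k : ℝ)) atTop atTop :=
    Real.tendsto_log_atTop.comp tendsto_natCast_atTop_atTop
  have hJ : Tendsto (fun k : ℕ => ⌈q * Real.log k / Real.log 2⌉₊) atTop atTop := by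
    refine tendsto_nat_ceil_atTop.comp ?_
    exact Tendsto.atTop_div_const hl2 (Tendsto.const_mul_atTop hq0 hlogk)
  have h2J : Tendsto (fun k : ℕ => 2 ^ ⌈q * Real.log k / Real.log 2⌉₊) atTop (atTop : Filter ℕ) :=
    (tendsto_pow_atTop_atTop_of_one_lt (by norm_num : (1:ℕ) < 2)).comp hJ
  have h1 := h2J.eventually hev
  have h2 : ∀ᶠ k : ℕ in atTop, q * Real.log k / Real.log 2 + 1 ≤ (k : ℝ) := by
    have hc : 0 < Real.log 2 / (2 * q) := by positivity
    have h3 : ∀ᶠ x : ℝ in atTop, ‖Real.log x‖ ≤ Real.log 2 / (2 * q) * ‖id x‖ :=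
      Real.isLittleO_log_id_atTop.bound hc
    have h4 := tendsto_natCast_atTop_atTop (R := ℝ) |>.eventually h3
    filter_upwards [h4, eventually_ge_atTop 2] with k h4 hk2
    have hk2' : (2:ℝ) ≤ k := by exact_mod_cast hk2
    have hk0 : (0:ℝ) ≤ k := by linarith
    simp only [id, Real.norm_eq_abs, abs_of_nonneg hk0] at h4
    have h5 : Real.log k ≤ Real.log 2 / (2 * q) * k := (le_abs_self _).trans h4
    have h6 : q * Real.log k / Real.log 2 ≤ k / 2 := by
      rw [div_le_iff₀ hl2]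
      calc q * Real.log k ≤ q * (Real.log 2 / (2 * q) * k) := mul_le_mul_of_nonneg_left h5 hq0.le
        _ = k / 2 * Real.log 2 := by field_simp
    linarith
  filter_upwards [h1, h2, eventually_ge_atTop 1] with k h1 h2 hk1 t ht0 ht
  set J := ⌈q * Real.log k / Real.log 2⌉₊ with hJdef
  have hkpos : (0:ℝ) < k := by exact_mod_cast hk1
  have hk1' : (1:ℝ) ≤ k := by exact_mod_cast hk1
  have hlogk0 : 0 ≤ Real.log k := Real.log_nonneg hk1'
  have hJle : (J : ℝ) ≤ q * Real.log k / Real.log 2 + 1 := (Nat.ceil_lt_add_one (by positivity)).le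
  have hJge : q * Real.log k / Real.log 2 ≤ J := Nat.le_ceil _
  have hmain := hK J k t ht0 ht (2 ^ J) le_rfl
  have hpart := hR (2 ^ J) t
  have hR1 : R a (2 ^ J) ≤ b * (q * Real.log k + 1) ^ κ := by
    refine h1.trans ?_
    refine mul_le_mul_of_nonneg_left ?_ hb
    refine Real.rpow_le_rpow ?_ ?_ hκ.le
    · exact Real.log_natCast_nonneg _
    · push_cast
      rw [Real.log_pow]
      have h3 := mul_le_mul_of_nonneg_right hJle hl2.le
      have h4 : (q * Real.log k / Real.log 2 + 1) * Real.log 2 = q * Real.log k + Real.log 2 := by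
        field_simp
      have h5 : Real.log 2 ≤ 1 := by
        have := Real.log_two_lt_d9
        linarith
      linarith
  have hpe : 0 ≤ pe m := by
    by_contra hneg
    push Not at hneg
    have := mul_neg_of_pos_of_neg hq0 hneg
    linarith
  have hpow : (2:ℝ) ^ (-(pe m * J / 2)) ≤ (k:ℝ) ^ (-(1/2) : ℝ) := by
    rw [Real.rpow_def_of_pos (by norm_num : (0:ℝ) < 2), Real.rpow_def_of_pos hkpos]
    apply Real.exp_le_exp.mpr
    have h5 : q * Real.log k ≤ J * Real.log 2 := by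
      rwa [div_le_iff₀ hl2] at hJge
    have h6 : pe m * (q * Real.log k) ≤ pe m * (J * Real.log 2) := mul_le_mul_of_nonneg_left h5 hpe
    have h7 : 1 * Real.log k ≤ (q * pe m) * Real.log k := mul_le_mul_of_nonneg_right hm hlogk0
    have h8 : Real.log 2 * -(pe m * J / 2) = -(pe m * (J * Real.log 2)) / 2 := by ring
    have h9 : pe m * (q * Real.log k) = (q * pe m) * Real.log k := by ring
    rw [h8]
    linarith
  have hsq : Real.sqrt ((J:ℝ) + k + 1) ≤ 2 * Real.sqrt k := by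
    rw [Real.sqrt_le_left (by positivity), mul_pow, Real.sq_sqrt hkpos.le]
    linarith
  have hprod : (2:ℝ) ^ (-(pe m * J / 2)) * Real.sqrt ((J:ℝ) + k + 1) ≤ 2 := by
    calc (2:ℝ) ^ (-(pe m * J / 2)) * Real.sqrt ((J:ℝ) + k + 1)
        ≤ (k:ℝ) ^ (-(1/2) : ℝ) * (2 * Real.sqrt k) :=
          mul_le_mul hpow hsq (Real.sqrt_nonneg _) (Real.rpow_nonneg hkpos.le _)
      _ = 2 := by
        rw [Real.sqrt_eq_rpow, mul_left_comm, ← Real.rpow_add hkpos]
        norm_num
  have hK2 : K * (2:ℝ) ^ (-(pe m * J / 2)) * Real.sqrt ((J:ℝ) + k + 1) ≤ 2 * |K| := by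
    have hnn : 0 ≤ (2:ℝ) ^ (-(pe m * J / 2)) * Real.sqrt ((J:ℝ) + k + 1) := by positivity
    calc K * (2:ℝ) ^ (-(pe m * J / 2)) * Real.sqrt ((J:ℝ) + k + 1)
        = K * ((2:ℝ) ^ (-(pe m * J / 2)) * Real.sqrt ((J:ℝ) + k + 1)) := by ring
      _ ≤ |K| * ((2:ℝ) ^ (-(pe m * J / 2)) * Real.sqrt ((J:ℝ) + k + 1)) :=
          mul_le_mul_of_nonneg_right (le_abs_self K) hnn
      _ ≤ |K| * 2 := mul_le_mul_of_nonneg_left hprod (abs_nonneg K)
      _ = 2 * |K| := by ring
  have h8 : |S t| ≤ |part W (2 ^ J) t| + |S t - part W (2 ^ J) t| := by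
    have := abs_add_le (part W (2 ^ J) t) (S t - part W (2 ^ J) t)
    rwa [add_sub_cancel] at this
  linarith

theorem T_UP : P_UP := by
  intro W S a κ b b' hUT hpart hκ hb hbb' hev
  have hl2 : 0 < Real.log 2 := Real.log_pos (by norm_num)
  have hc : Tendsto (fun q : ℝ => b * q ^ κ) (𝓝 1) (𝓝 (b * 1 ^ κ)) :=
    (continuousAt_const.mul (Real.continuousAt_rpow_const 1 κ (Or.inl one_ne_zero))).tendsto
  rw [Real.one_rpow, mul_one] at hc
  obtain ⟨q, hq1, hqb⟩ : ∃ q : ℝ, 1 < q ∧ b * q ^ κ < b' := by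
    have h1 : ∀ᶠ q : ℝ in 𝓝 1, b * q ^ κ < b' := hc.eventually (gt_mem_nhds hbb')
    have h2 : ∀ᶠ q : ℝ in 𝓝[>] 1, b * q ^ κ < b' := h1.filter_mono nhdsWithin_le_nhds
    obtain ⟨q, hq1, hq2⟩ := (h2.and self_mem_nhdsWithin).exists
    exact ⟨q, hq2, hq1⟩
  have hq0 : 0 < q := by linarith
  obtain ⟨m, hm⟩ : ∃ m : ℕ, 1 ≤ q * pe m := by
    obtain ⟨m, hm⟩ := exists_nat_gt (q / (q - 1))
    refine ⟨m, ?_⟩
    unfold pe
    have hq0 : 0 < q - 1 := by linarith
    rw [div_lt_iff₀ hq0] at hm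
    have hm2 : (0:ℝ) < (m:ℝ) + 2 := by positivity
    have h2 : q * (1 - 1/((m:ℝ)+2)) - 1 = ((q-1) * ((m:ℝ)+2) - q) / ((m:ℝ)+2) := by
      field_simp
      ring
    have h3 : 0 ≤ ((q-1) * ((m:ℝ)+2) - q) / ((m:ℝ)+2) := by
      apply div_nonneg _ hm2.le
      nlinarith
    linarith
  obtain ⟨K, hK⟩ := hUT m
  have hst := stage W S a κ b q m K hκ hb hq1 hm hK hpart hev
  have hlog : Tendsto Real.log atTop atTop := Real.tendsto_log_atTop
  have hk : Tendsto (fun t : ℝ => ⌈Real.log t / Real.log 2⌉₊) atTop atTop :=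
    tendsto_nat_ceil_atTop.comp (Tendsto.atTop_div_const hl2 hlog)
  have h1 := hk.eventually hst
  have hy : Tendsto (fun t : ℝ => Real.log (Real.log t)) atTop atTop := hlog.comp hlog
  have hfin : ∀ᶠ y : ℝ in atTop, b * (q * (y + 1) + 1) ^ κ + 2 * |K| ≤ b' * y ^ κ := by
    have hy1 : Tendsto (fun y : ℝ => b * ((q * (y + 1) + 1) / y) ^ κ + 2 * |K| / y ^ κ) atTop
        (𝓝 (b * q ^ κ + 0)) := by
      refine Tendsto.add ?_ ?_
      · refine Tendsto.const_mul b ?_
        refine Tendsto.rpow_const ?_ (Or.inl hq0.ne')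
        have h5 : Tendsto (fun y : ℝ => q + (q + 1) / y) atTop (𝓝 (q + 0)) :=
          tendsto_const_nhds.add (Tendsto.div_atTop tendsto_const_nhds tendsto_id)
        rw [add_zero] at h5
        refine h5.congr' ?_
        filter_upwards [eventually_gt_atTop 0] with y hy
        field_simp
        ring
      · exact Tendsto.div_atTop tendsto_const_nhds (tendsto_rpow_atTop hκ)
    rw [add_zero] at hy1
    have h2 := hy1.eventually (gt_mem_nhds hqb)
    filter_upwards [h2, eventually_gt_atTop 0] with y h2 hy0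
    have hyk : 0 < y ^ κ := Real.rpow_pos_of_pos hy0 κ
    rw [Real.div_rpow (by positivity) hy0.le] at h2
    have h4 := mul_lt_mul_of_pos_right h2 hyk
    have h3 : (b * ((q * (y + 1) + 1) ^ κ / y ^ κ) + 2 * |K| / y ^ κ) * y ^ κ =
        b * (q * (y + 1) + 1) ^ κ + 2 * |K| := by
      field_simp
    linarith
  have h3 := hy.eventually hfin
  filter_upwards [h1, h3, eventually_ge_atTop (Real.exp 1)] with t h1 h3 ht
  have ht0 : 0 < t := lt_of_lt_of_le (Real.exp_pos 1) ht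
  have hL1 : 1 ≤ Real.log t := by
    rw [Real.le_log_iff_exp_le ht0]
    exact ht
  set k := ⌈Real.log t / Real.log 2⌉₊ with hkdef
  have hkge : Real.log t / Real.log 2 ≤ k := Nat.le_ceil _
  have hkle : (k : ℝ) < Real.log t / Real.log 2 + 1 := Nat.ceil_lt_add_one (by positivity)
  have ht2 : t ≤ 2 ^ k := by
    rw [div_le_iff₀ hl2] at hkge
    have h5 : Real.log t ≤ Real.log (2 ^ k) := by
      rw [Real.log_pow]
      exact hkge
    exact (Real.log_le_log_iff ht0 (by positivity)).mp h5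
  have hkpos : (0:ℝ) < k := lt_of_lt_of_le (by positivity) hkge
  have hlk : Real.log k ≤ Real.log (Real.log t) + 1 := by
    have h5 : (k:ℝ) ≤ Real.exp 1 * Real.log t := by
      have h6 : Real.log t / Real.log 2 ≤ 1.5 * Real.log t := by
        rw [div_le_iff₀ hl2]
        have := Real.log_two_gt_d9
        nlinarith
      have h7 := Real.exp_one_gt_d9
      nlinarith
    calc Real.log k ≤ Real.log (Real.exp 1 * Real.log t) := Real.log_le_log hkpos h5
      _ = Real.log (Real.log t) + 1 := by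
        rw [Real.log_mul (Real.exp_pos 1).ne' (by linarith), Real.log_exp]
        ring
  have hk1 : (1:ℝ) ≤ k := by
    have : 0 < k := by exact_mod_cast hkpos
    exact_mod_cast this
  refine (h1 t ht0.le ht2).trans (le_trans ?_ h3)
  have h9 : (q * Real.log k + 1) ^ κ ≤ (q * (Real.log (Real.log t) + 1) + 1) ^ κ := by
    refine Real.rpow_le_rpow ?_ ?_ hκ.le
    · have := Real.log_nonneg hk1
      positivity
    · have := mul_le_mul_of_nonneg_left hlk hq0.le
      linarith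
  have h10 := mul_le_mul_of_nonneg_left h9 hb
  linarith

end Pool.Agent.H236.RO
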